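import Pool.Agent.W603.BP.Extn
import Pool.Agent.W602.GT.Defs

/-!
Quasi-projective varieties `X - D`, with `X` and `D` closed subsets of projective space: points over
fields, centres of places, holomorphic maps from the punctured disc and entire curves.
-/

set_option autoImplicit false

open Metric MvPolynomial

namespace Pool.Agent.K9h12.FR

open Pool.Agent.W602.GT

/-- A closed subset of the projective space `P^N`, given by homogeneous equations. -/
structure PSet (N : ℕ) where
  eqs : Set (MvPolynomial (Fin (N + 1)) ℂ)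
  hom : ∀ G ∈ eqs, ∃ E : ℕ, G.IsHomogeneous E

variable {N : ℕ}

/-- The point with the homogeneous coordinates `a` over `L` lies in `X`. -/
def PSet.Mem (X : PSet N) {L : Type} [Field L] [Algebra ℂ L] (a : Fin (N + 1) → L) : Prop :=
  a ≠ 0 ∧ ∀ G ∈ X.eqs, aeval a G = 0

/-- `X` is irreducible, with function field `K` and generic point `a`: the quotients of the
coordinates of `a` generate `K`, and the forms which vanish at `a` are those which vanish on `X`. -/
structure PSet.FunctionField (X : PSet N) (K : Type) [Field K] [Algebra ℂ K]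
    (a : Fin (N + 1) → K) : Prop where
  mem : X.Mem a
  gen : IntermediateField.adjoin ℂ {f : K | ∃ i j, a j ≠ 0 ∧ f = a i / a j} = ⊤
  generic : ∀ G : MvPolynomial (Fin (N + 1)) ℂ, (∃ E : ℕ, G.IsHomogeneous E) → aeval a G = 0 →
    ∀ u : Fin (N + 1) → ℂ, X.Mem u → eval u G = 0

/-- The centre in `P^N` of the place `P` of `L`, for the point with coordinates `a` over `L`, lies
in the closed subset `D`: if `c` is the minimum of the orders of the coordinates, then all equations
of `D`, of degree `E`, have order more than `E * c` (or vanish). -/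
def CentreIn (D : PSet N) {L : Type} [Field L] [Algebra ℂ L] (a : Fin (N + 1) → L)
    (P : FF.Place ℂ L) : Prop :=
  ∀ c : ℤ, ((∀ j, a j ≠ 0 → c ≤ P.ord (a j)) ∧ ∃ j, a j ≠ 0 ∧ P.ord (a j) = c) →
    ∀ G ∈ D.eqs, ∀ E : ℕ, G.IsHomogeneous E → aeval a G = 0 ∨ E * c < P.ord (aeval a G)

/-- Holomorphic maps from the punctured unit disc to `X - D`, in homogeneous coordinates. -/
structure Disc (X D : PSet N) (f : ℂ → Fin (N + 1) → ℂ) : Prop where
  diff : DifferentiableOn ℂ f (ball 0 1 \ {0})
  mem : ∀ z ∈ ball (0 : ℂ) 1 \ {0}, X.Mem (f z) ∧ ¬ D.Mem (f z)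

/-- Nonconstant entire curves in `X - D`, in homogeneous coordinates. -/
structure Entire (X D : PSet N) (f : ℂ → Fin (N + 1) → ℂ) : Prop where
  diff : Differentiable ℂ f
  mem : ∀ z, X.Mem (f z) ∧ ¬ D.Mem (f z)
  nonconst : ∃ z z', ∀ t : ℂ, f z' ≠ t • f z

/-- Picard: the holomorphic maps from the punctured disc to `X - D` whose image is not contained in
`G = 0` extend holomorphically to the disc (as maps to `P^N`). -/
def PicardOff (X D : PSet N) (G : MvPolynomial (Fin (N + 1)) ℂ) : Prop :=
  ∀ f, Disc X D f → (∃ z ∈ ball (0 : ℂ) 1 \ {0}, eval (f z) G ≠ 0) →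
    Pool.Agent.W603.BP.Extends f

/-- Brody: the nonconstant entire curves in `X - D` lie in `G = 0`. -/
def BrodyOff (X D : PSet N) (G : MvPolynomial (Fin (N + 1)) ℂ) : Prop :=
  ∀ f, Entire X D f → ∀ z, eval (f z) G = 0

/-- Lang: the closed subvarieties of `X - D` of positive dimension `d` which are not contained in
`G = 0` are of log general type. The subvariety is given by its function field `L` and the
coordinates `a` of its generic point. -/
def LangOff (X D : PSet N) (G : MvPolynomial (Fin (N + 1)) ℂ) : Prop :=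
  ∀ (L : Type) [Field L] [Algebra ℂ L] (a : Fin (N + 1) → L) (d : ℕ),
    X.Mem a → ¬ D.Mem a → aeval a G ≠ 0 →
    IntermediateField.adjoin ℂ {f : L | ∃ i j, a j ≠ 0 ∧ f = a i / a j} = ⊤ →
    Algebra.trdeg ℂ L = d → 0 < d → LogGeneralType ℂ L d (CentreIn D a)

/-- The four properties of `X - D`, where `X` is irreducible with generic point `a` over its
function field `K` of transcendence degree `n`: `X - D` is of log general type, and there is a
closed subset `G = 0` of `P^N` which does not contain `X - D` such that `X - D` is Picard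
hyperbolic, Brody hyperbolic, and all its subvarieties are of log general type, outside `G = 0`. -/
def Four (X D : PSet N) (K : Type) [Field K] [Algebra ℂ K] (a : Fin (N + 1) → K) (n : ℕ) : Prop :=
  LogGeneralType ℂ K n (CentreIn D a) ∧
    ∃ G : MvPolynomial (Fin (N + 1)) ℂ, (∃ E : ℕ, G.IsHomogeneous E) ∧
      (∃ u : Fin (N + 1) → ℂ, (X.Mem u ∧ ¬ D.Mem u) ∧ eval u G ≠ 0) ∧
      PicardOff X D G ∧ BrodyOff X D G ∧ LangOff X D G

end Pool.Agent.K9h12.FR
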