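import Pool.Agent.K9h12.FR.Tr2

/-!
Rational functions as quotients of forms, and their values at points.
-/

set_option autoImplicit false

open MvPolynomial

namespace Pool.Agent.K9h12.FR

variable {N n : ℕ}

/-- rational functions are quotients of forms -/
theorem exists_forms {X : PSet N} {K : Type} [Field K] [Algebra ℂ K] {a : Fin (N + 1) → K}
    (hK : X.FunctionField K a) (w : K) : ∃ (E : ℕ) (h0 h1 : MvPolynomial (Fin (N + 1)) ℂ),
      h0.IsHomogeneous E ∧ h1.IsHomogeneous E ∧ aeval a h0 ≠ 0 ∧ w = aeval a h1 / aeval a h0 := by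
  have hw : w ∈ IntermediateField.adjoin ℂ {f : K | ∃ i j, a j ≠ 0 ∧ f = a i / a j} := by
    rw [hK.gen]
    exact IntermediateField.mem_top
  induction hw using IntermediateField.adjoin_induction with
  | mem x hx =>
    obtain ⟨i, j, hj, rfl⟩ := hx
    exact ⟨1, MvPolynomial.X j, MvPolynomial.X i, isHomogeneous_X _ _, isHomogeneous_X _ _,
      by simpa using hj, by simp⟩
  | algebraMap c =>
    exact ⟨0, 1, C c, isHomogeneous_one _ _, isHomogeneous_C _ _, by simp, by simp⟩
  | add x y _ _ hx hy =>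
    obtain ⟨E, h0, h1, e1, e2, e3, rfl⟩ := hx
    obtain ⟨E', h0', h1', e1', e2', e3', rfl⟩ := hy
    refine ⟨E + E', h0 * h0', h1 * h0' + h0 * h1', e1.mul e1', (e2.mul e1').add (e1.mul e2'), ?_, ?_⟩
    · rw [map_mul]; exact mul_ne_zero e3 e3'
    · simp only [map_mul, map_add]
      field_simp
  | inv x _ hx =>
    obtain ⟨E, h0, h1, e1, e2, e3, rfl⟩ := hx
    by_cases h : aeval a h1 = 0
    · exact ⟨0, 1, 0, isHomogeneous_one _ _, isHomogeneous_zero _ _ _, by simp, by simp [h]⟩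
    · exact ⟨E, h1, h0, e2, e1, h, by rw [inv_div]⟩
  | mul x y _ _ hx hy =>
    obtain ⟨E, h0, h1, e1, e2, e3, rfl⟩ := hx
    obtain ⟨E', h0', h1', e1', e2', e3', rfl⟩ := hy
    refine ⟨E + E', h0 * h0', h1 * h1', e1.mul e1', e2.mul e2', ?_, ?_⟩
    · rw [map_mul]; exact mul_ne_zero e3 e3'
    · simp only [map_mul]
      field_simp

/-- with a common denominator -/
theorem exists_common {X : PSet N} {K : Type} [Field K] [Algebra ℂ K] {a : Fin (N + 1) → K}
    (hK : X.FunctionField K a) (w : Fin n → K) : ∃ (δ : ℕ)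
      (g : Fin (n + 1) → MvPolynomial (Fin (N + 1)) ℂ), (∀ i, (g i).IsHomogeneous δ) ∧
      aeval a (g 0) ≠ 0 ∧ ∀ i : Fin n, w i = aeval a (g i.succ) / aeval a (g 0) := by
  classical
  choose E h0 h1 e1 e2 e3 e4 using fun i => exists_forms hK (w i)
  refine ⟨∑ i, E i, Fin.cons (∏ i, h0 i) fun i => h1 i * ∏ j ∈ Finset.univ.erase i, h0 j, ?_, ?_, ?_⟩
  · intro i
    refine Fin.cases ?_ (fun i => ?_) i
    · rw [Fin.cons_zero]
      exact IsHomogeneous.prod _ _ _ fun i _ => e1 i
    · rw [Fin.cons_succ, ← Finset.add_sum_erase Finset.univ E (Finset.mem_univ i)]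
      exact (e2 i).mul (IsHomogeneous.prod _ _ _ fun j _ => e1 j)
  · rw [Fin.cons_zero, map_prod]
    exact Finset.prod_ne_zero_iff.2 fun i _ => e3 i
  · intro i
    rw [Fin.cons_succ, Fin.cons_zero, ← Finset.mul_prod_erase Finset.univ h0 (Finset.mem_univ i),
      map_mul, map_mul, e4 i]
    have h5 : aeval a (∏ j ∈ Finset.univ.erase i, h0 j) ≠ 0 := by
      rw [map_prod]
      exact Finset.prod_ne_zero_iff.2 fun i _ => e3 i
    rw [mul_div_mul_right _ _ h5]

/-- relations hold at all points -/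
theorem spec_rel {X : PSet N} {K : Type} [Field K] [Algebra ℂ K] {a : Fin (N + 1) → K}
    (hK : X.FunctionField K a) {δ : ℕ} {g : Fin (n + 1) → MvPolynomial (Fin (N + 1)) ℂ}
    (hg : ∀ i, (g i).IsHomogeneous δ) (hg0 : aeval a (g 0) ≠ 0) {F : MvPolynomial (Fin n) ℂ}
    (hF : aeval (fun i : Fin n => aeval a (g i.succ) / aeval a (g 0)) F = 0)
    {L : Type} [Field L] [Algebra ℂ L] {a' : Fin (N + 1) → L} (ha' : X.Mem a')
    (hg0' : aeval a' (g 0) ≠ 0) :
    aeval (fun i : Fin n => aeval a' (g i.succ) / aeval a' (g 0)) F = 0 := by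
  let F' : MvPolynomial (Fin (n + 1)) ℂ :=
    Pool.Agent.TH152.HY.Hy 0 (rename Fin.succ F) (rename Fin.succ F).totalDegree
  have hv : ∀ {L : Type} [Field L] [Algebra ℂ L] (b : Fin (n + 1) → L), b 0 ≠ 0 →
      aeval b F' = b 0 ^ (rename Fin.succ F).totalDegree *
        aeval (fun i : Fin n => b i.succ / b 0) F := by
    intro L _ _ b hb
    have h1 := Pool.Agent.TH152.HY.Hy_field b hb (rename Fin.succ F) le_rfl
    have h2 : aeval (fun j => b j / b 0) (rename Fin.succ F) =
        aeval (fun i : Fin n => b i.succ / b 0) F := by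
      rw [aeval_rename]
      rfl
    rw [h2] at h1
    exact h1
  have h1 : aeval a (aeval g F') = 0 := by
    rw [aeval_bind, hv _ hg0, hF, mul_zero]
  have h2 := null (fun u hu => hK.generic _ ⟨_, bind_hom hg (Pool.Agent.TH152.HY.Hy_hom 0 _ le_rfl)⟩
    h1 u hu) ha'
  rw [aeval_bind, hv _ hg0'] at h2
  exact (mul_eq_zero.1 h2).resolve_left (pow_ne_zero _ hg0')

end Pool.Agent.K9h12.FR
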