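import Pool.Agent.K9h12.FR.Defs
import Pool.Agent.Y190.AN.Pic
import Pool.Agent.TH152.HY.QMain

/-!
The transfer theorem: the four properties follow from statements about points over the field of
meromorphic functions near infinity and over function fields.
-/

set_option autoImplicit false

open Metric MvPolynomial FF Filter Topology

namespace Pool.Agent.K9h12.FR

open Pool.Agent.W602.GT Pool.Agent.W603.BP Pool.Agent.Y190.AN

variable {N n : ℕ}

/-- Nullstellensatz: a polynomial which vanishes at the complex points of `X` vanishes at all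
points. -/
theorem null {X : PSet N} {G : MvPolynomial (Fin (N + 1)) ℂ}
    (hG : ∀ u : Fin (N + 1) → ℂ, X.Mem u → eval u G = 0)
    {L : Type} [Field L] [Algebra ℂ L] {a : Fin (N + 1) → L} (h : X.Mem a) : aeval a G = 0 := by
  obtain ⟨ha, he⟩ := h
  obtain ⟨i, hi⟩ := Function.ne_iff.mp ha
  set J : Ideal (MvPolynomial (Fin (N + 1)) ℂ) := Ideal.span X.eqs with hJ
  have h1 : G * MvPolynomial.X i ∈ vanishingIdeal ℂ (zeroLocus ℂ J) := by
    rw [mem_vanishingIdeal_iff]
    intro x hx
    by_cases hx1 : x = 0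
    · rw [map_mul, aeval_X, congrFun hx1 i]
      simp
    have h2 := hG x ⟨hx1, fun F hF => hx F (Ideal.subset_span hF)⟩
    have h3 : aeval x G = 0 := h2
    rw [map_mul, h3, zero_mul]
  rw [vanishingIdeal_zeroLocus_eq_radical] at h1
  obtain ⟨k, hk⟩ := h1
  have h2 : ∀ F ∈ J, aeval a F = 0 := by
    intro F hF
    have h3 : J ≤ RingHom.ker (aeval (R := ℂ) a) := by
      rw [hJ, Ideal.span_le]
      exact fun F hF => he F hF
    exact h3 hF
  have h4 := h2 _ hk
  rw [map_pow] at h4
  have h5 : aeval a (G * MvPolynomial.X i) = 0 := by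
    by_contra hne
    exact pow_ne_zero k hne h4
  rw [map_mul, aeval_X] at h5
  exact (mul_eq_zero.mp h5).resolve_right hi

/-- composition with forms -/
theorem bind_hom {g : Fin (n + 1) → MvPolynomial (Fin (N + 1)) ℂ} {δ : ℕ}
    (hg : ∀ i, (g i).IsHomogeneous δ) {c : MvPolynomial (Fin (n + 1)) ℂ} {D : ℕ}
    (hc : c.IsHomogeneous D) : (aeval g c).IsHomogeneous (δ * D) :=
  hc.aeval g hg

theorem aeval_bind {g : Fin (n + 1) → MvPolynomial (Fin (N + 1)) ℂ}
    {c : MvPolynomial (Fin (n + 1)) ℂ} {L : Type} [Field L] [Algebra ℂ L] (a : Fin (N + 1) → L) :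
    aeval a (aeval g c) = aeval (fun i => aeval a (g i)) c := by
  rw [← AlgHom.comp_apply, comp_aeval]

/-- The equation of a ratio of two coordinates. -/
structure Rel (X : PSet N) (g : Fin (n + 1) → MvPolynomial (Fin (N + 1)) ℂ) (i j : Fin (N + 1))
    (D m : ℕ) (c : ℕ → MvPolynomial (Fin (n + 1)) ℂ) : Prop where
  hom : ∀ s, s ≤ m → (c s).IsHomogeneous D
  rel : ∀ (L : Type) [Field L] [Algebra ℂ L] (a : Fin (N + 1) → L), X.Mem a → a j ≠ 0 →
    ∑ s ∈ Finset.range (m + 1), aeval (fun i => aeval a (g i)) (c s) * (a i / a j) ^ s = 0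

theorem exists_rel {X : PSet N} {g : Fin (n + 1) → MvPolynomial (Fin (N + 1)) ℂ} {δ : ℕ}
    (hg : ∀ i, (g i).IsHomogeneous δ) {K : Type} [Field K] [Algebra ℂ K]
    {a : Fin (N + 1) → K} (hF : X.FunctionField K a) (hb0 : aeval a (g 0) ≠ 0)
    (hG : Algebra.IsAlgebraic (IntermediateField.adjoin ℂ
      (Set.range fun i : Fin n => aeval a (g i.succ) / aeval a (g 0))) K)
    (i j : Fin (N + 1)) :
    ∃ (D m : ℕ) (c : ℕ → MvPolynomial (Fin (n + 1)) ℂ), Rel X g i j D m c ∧
      aeval (fun i => aeval a (g i)) (c m) ≠ 0 := by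
  classical
  by_cases haj : a j = 0
  · have hv := hF.generic (MvPolynomial.X j) ⟨1, isHomogeneous_X _ _⟩ (by simp [haj])
    refine ⟨0, 0, fun _ => 1, ⟨fun s _ => isHomogeneous_one _ _, ?_⟩, by simp⟩
    intro L _ _ a' hm haj'
    have h1 := null hv hm
    rw [aeval_X] at h1
    exact absurd h1 haj'
  set b : Fin (n + 1) → K := fun i => aeval a (g i) with hb
  have halg : Algebra.IsAlgebraic (Algebra.adjoin ℂ (Set.range fun j => b j / b 0)) K := by
    rw [← IntermediateField.isAlgebraic_adjoin_iff_top]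
    refine Pool.Agent.TH152.HY.alg_mono ?_ hG
    rw [IntermediateField.adjoin_le_iff]
    rintro _ ⟨i, rfl⟩
    exact IntermediateField.subset_adjoin ℂ _ ⟨i.succ, rfl⟩
  obtain ⟨p, hp0, hp⟩ := halg.isAlgebraic (a i / a j)
  have hco : ∀ s : ℕ, ∃ P : MvPolynomial (Fin (n + 1)) ℂ,
      aeval (fun j => b j / b 0) P = ((p.coeff s : Algebra.adjoin ℂ _) : K) := by
    intro s
    have h0 := (p.coeff s).2
    exact (SetLike.ext_iff.1 (Algebra.adjoin_range_eq_range_aeval ℂ
      (fun j => b j / b 0)) _).1 h0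
  choose P hP using hco
  set m := p.natDegree with hm
  set D := ∑ s ∈ Finset.range (m + 1), (P s).totalDegree with hD
  have hDs : ∀ s ∈ Finset.range (m + 1), (P s).totalDegree ≤ D := fun s hs =>
    Finset.single_le_sum (f := fun s => (P s).totalDegree) (fun _ _ => Nat.zero_le _) hs
  have hmm : m ∈ Finset.range (m + 1) := by simp
  let c : ℕ → MvPolynomial (Fin (n + 1)) ℂ := fun s => Pool.Agent.TH152.HY.Hy 0 (P s) D
  have hcv : ∀ s ∈ Finset.range (m + 1), aeval b (c s) = b 0 ^ D *
      ((p.coeff s : Algebra.adjoin ℂ _) : K) := fun s hs => by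
    rw [← hP s]
    exact Pool.Agent.TH152.HY.Hy_field b hb0 (P s) (hDs s hs)
  have hch : ∀ s, s ≤ m → (c s).IsHomogeneous D := fun s hs =>
    Pool.Agent.TH152.HY.Hy_hom 0 (P s) (hDs s (Finset.mem_range.mpr (by omega)))
  have hpow : ∀ {L : Type} [Field L] [Algebra ℂ L] (a' : Fin (N + 1) → L), a' j ≠ 0 →
      ∑ s ∈ Finset.range (m + 1), aeval (fun i => aeval a' (g i)) (c s) *
        (a' i ^ s * a' j ^ (m - s)) = a' j ^ m * ∑ s ∈ Finset.range (m + 1),
          aeval (fun i => aeval a' (g i)) (c s) * (a' i / a' j) ^ s := by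
    intro L _ _ a' haj'
    rw [Finset.mul_sum]
    refine Finset.sum_congr rfl (fun s hs => ?_)
    have hs' : s ≤ m := by have := Finset.mem_range.1 hs; omega
    have h3 : a' j ^ m = a' j ^ (m - s) * a' j ^ s := by
      rw [← pow_add]; congr 1; omega
    rw [h3, div_pow]
    have h4 : a' j ^ s ≠ 0 := pow_ne_zero _ haj'
    field_simp
  set G : MvPolynomial (Fin (N + 1)) ℂ := ∑ s ∈ Finset.range (m + 1), aeval g (c s) *
      (MvPolynomial.X i ^ s * MvPolynomial.X j ^ (m - s)) with hGdef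
  have hGB : G.IsHomogeneous (δ * D + m) := by
    refine IsHomogeneous.sum _ _ _ (fun s hs => ?_)
    have hs' : s ≤ m := by have := Finset.mem_range.1 hs; omega
    have e : δ * D + m = δ * D + (s + (m - s)) := by omega
    rw [e]
    refine (bind_hom hg (hch s hs')).mul (IsHomogeneous.mul ?_ ?_)
    · simpa using (isHomogeneous_X ℂ i).pow s
    · simpa using (isHomogeneous_X ℂ j).pow (m - s)
  have hval : ∀ {L : Type} [Field L] [Algebra ℂ L] (x : Fin (N + 1) → L),
      aeval x G = ∑ s ∈ Finset.range (m + 1), aeval (fun i => aeval x (g i)) (c s) *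
        (x i ^ s * x j ^ (m - s)) := by
    intro L _ _ x
    rw [hGdef, map_sum]
    refine Finset.sum_congr rfl (fun s hs => ?_)
    rw [map_mul, map_mul, map_pow, map_pow, aeval_bind]
    simp only [aeval_X]
  have hG0 : aeval a G = 0 := by
    rw [hval, hpow a haj]
    have h1 : Polynomial.aeval (a i / a j) p = ∑ s ∈ Finset.range (m + 1),
        ((p.coeff s : Algebra.adjoin ℂ _) : K) * (a i / a j) ^ s := by
      rw [Polynomial.aeval_eq_sum_range]
      rfl
    rw [h1] at hp
    have h2 : ∑ s ∈ Finset.range (m + 1), aeval (fun i => aeval a (g i)) (c s) * (a i / a j) ^ s =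
        b 0 ^ D * ∑ s ∈ Finset.range (m + 1),
          ((p.coeff s : Algebra.adjoin ℂ _) : K) * (a i / a j) ^ s := by
      rw [Finset.mul_sum]
      refine Finset.sum_congr rfl (fun s hs => ?_)
      rw [← mul_assoc, ← hcv s hs]
    rw [h2, hp, mul_zero, mul_zero]
  have hX := hF.generic G ⟨_, hGB⟩ hG0
  refine ⟨D, m, c, ⟨hch, ?_⟩, ?_⟩
  · intro L _ _ a' hab haj'
    have h1 := null hX hab
    rw [hval, hpow a' haj'] at h1
    exact (mul_eq_zero.mp h1).resolve_left (pow_ne_zero _ haj')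
  · change aeval b (c m) ≠ 0
    rw [hcv m hmm]
    refine mul_ne_zero (pow_ne_zero _ hb0) ?_
    intro h2
    have h3 : p.coeff m = 0 := by exact_mod_cast h2
    exact hp0 (Polynomial.leadingCoeff_eq_zero.1 h3)

/-- the ratios are algebraic over the values -/
theorem ratio_alg {X : PSet N} {g : Fin (n + 1) → MvPolynomial (Fin (N + 1)) ℂ}
    {i j : Fin (N + 1)} {D m : ℕ} {c : ℕ → MvPolynomial (Fin (n + 1)) ℂ} (h : Rel X g i j D m c)
    {L : Type} [Field L] [Algebra ℂ L] {a : Fin (N + 1) → L} (ha : X.Mem a) (haj : a j ≠ 0)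
    (h0 : aeval a (g 0) ≠ 0) (hb : aeval (fun i => aeval a (g i)) (c m) ≠ 0)
    (F : IntermediateField ℂ L) (hx : ∀ i : Fin n, aeval a (g i.succ) / aeval a (g 0) ∈ F) :
    IsAlgebraic F (a i / a j) := by
  classical
  set b : Fin (n + 1) → L := fun i => aeval a (g i) with hbdef
  have hbF : ∀ i, (b 0)⁻¹ * b i ∈ F := by
    intro i
    refine Fin.cases ?_ (fun k => ?_) i
    · rw [inv_mul_cancel₀ h0]; exact F.one_mem
    · rw [← div_eq_inv_mul]; exact hx k
  let e : ℕ → F := fun s => ⟨aeval (fun l => (b 0)⁻¹ * b l) (c s),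
    Pool.Agent.TH152.HY.aeval_mem F hbF _⟩
  refine ⟨∑ s ∈ Finset.range (m + 1), Polynomial.C (e s) * Polynomial.X ^ s, ?_, ?_⟩
  · intro h0'
    have h1 := congrArg (fun p => Polynomial.coeff p m) h0'
    simp only [Polynomial.finsetSum_coeff, Polynomial.coeff_C_mul, Polynomial.coeff_X_pow,
      Polynomial.coeff_zero] at h1
    rw [Finset.sum_eq_single m] at h1
    · rw [if_pos rfl, mul_one] at h1
      have h2 : aeval (fun l => (b 0)⁻¹ * b l) (c m) = 0 := congrArg Subtype.val h1
      rw [Pool.Agent.TH152.HY.aeval_scale _ (h.hom _ le_rfl)] at h2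
      exact mul_ne_zero (pow_ne_zero _ (inv_ne_zero h0)) hb h2
    · intro s _ hs
      rw [if_neg (fun h => hs h.symm), mul_zero]
    · intro h
      exact absurd (by simp) h
  · rw [map_sum]
    have h1 : ∀ s ∈ Finset.range (m + 1), Polynomial.aeval (a i / a j)
        (Polynomial.C (e s) * Polynomial.X ^ s) =
        ((b 0)⁻¹) ^ D * (aeval b (c s) * (a i / a j) ^ s) := by
      intro s hs
      have hs' : s ≤ m := by have := Finset.mem_range.1 hs; omega
      rw [map_mul, Polynomial.aeval_C, map_pow, Polynomial.aeval_X, ← mul_assoc,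
        ← Pool.Agent.TH152.HY.aeval_scale _ (h.hom s hs')]
      rfl
    rw [Finset.sum_congr rfl h1, ← Finset.mul_sum, h.rel L a ha haj, mul_zero]

end Pool.Agent.K9h12.FR
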