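import Pool.Agent.K9h12.FR.Tr

/-!
The transfer theorem: the proof.
-/

set_option autoImplicit false

open Metric MvPolynomial FF Filter Topology

namespace Pool.Agent.K9h12.FR

open Pool.Agent.W602.GT Pool.Agent.W603.BP Pool.Agent.Y190.AN

variable {N n : ℕ}

/-- the trivial equations -/
def noEqs (N : ℕ) : Empty → MvPolynomial (Fin (N + 1)) ℂ := fun e => e.elim

theorem pcurve_of {X D : PSet N} {f : ℂ → Fin (N + 1) → ℂ} (hf : Disc X D f) :
    PCurve ∅ (noEqs N) f :=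
  ⟨hf.diff, fun z hz => ⟨(hf.mem z hz).1.1, fun j hj => absurd hj (Set.notMem_empty j),
    fun e => e.elim⟩⟩

/-- the coordinates are meromorphic -/
theorem coord_mero {X D : PSet N} {f : ℂ → Fin (N + 1) → ℂ} (hf : Disc X D f) (i : Fin (N + 1)) :
    MeromorphicOn (fun z => f z⁻¹ i) (exD 1 one_pos).U :=
  fun z hz => (coord_an (pcurve_of hf) i z hz).meromorphicAt

theorem inv_mem_ball {z : ℂ} (hz : z ∈ Ext 1) : z⁻¹ ∈ ball (0 : ℂ) 1 \ {0} := by
  have hz1 : 1 < ‖z‖ := hz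
  have hz0 : z ≠ 0 := by
    rintro rfl
    rw [norm_zero] at hz1
    linarith
  refine ⟨?_, inv_ne_zero hz0⟩
  rw [mem_ball_zero_iff, norm_inv]
  exact inv_lt_one_of_one_lt₀ hz1

/-- a form at the generic point of a punctured disc -/
theorem eval_an {X D : PSet N} {f : ℂ → Fin (N + 1) → ℂ} (hf : Disc X D f)
    (G : MvPolynomial (Fin (N + 1)) ℂ) {z : ℂ} (hz : z ∈ Ext 1) :
    AnalyticAt ℂ (fun z => eval (fun i => f z⁻¹ i) G) z := by
  simp only [MvPolynomial.eval_eq']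
  refine Finset.analyticAt_fun_sum _ fun α _ => ?_
  refine AnalyticAt.fun_mul analyticAt_const ?_
  exact Finset.analyticAt_fun_prod _ fun j _ => (coord_an (pcurve_of hf) j z hz).fun_pow _

/-- the value of a form at a point and its order -/
theorem ord_eval {X D : PSet N} {f : ℂ → Fin (N + 1) → ℂ} (hf : Disc X D f)
    (G : MvPolynomial (Fin (N + 1)) ℂ) {z : ℂ} (hz : z ∈ (exD 1 one_pos).U)
    (h : eval (f z⁻¹) G ≠ 0) :
    aeval (fun i => cl _ (coord_mero hf i)) G ≠ 0 ∧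
      (PL hz).ord (aeval (fun i => cl _ (coord_mero hf i)) G) = 0 := by
  have h1 : MeromorphicOn (fun z => eval (fun i => f z⁻¹ i) G) (exD 1 one_pos).U :=
    fun z hz => (eval_an hf G hz).meromorphicAt
  have h2 : aeval (fun i => cl _ (coord_mero hf i)) G =
      cl (fun z => eval (fun i => f z⁻¹ i) G) h1 := val_cl G _ h1
  have h3 := eval_an hf G hz
  have h4 : analyticOrderAt (fun z => eval (fun i => f z⁻¹ i) G) z = ((0 : ℕ) : ℕ∞) := by
    rw [Nat.cast_zero, h3.analyticOrderAt_eq_zero]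
    exact h
  rw [h2]
  refine ⟨?_, ?_⟩
  · intro h0
    have h5 := cl_eq_zero.1 h0 z hz
    have h6 := h3.frequently_zero_iff_eventually_zero.1 h5.frequently
    exact h h6.self_of_nhds
  · have := ord_cl (hg := h1) hz h3 h4
    exact_mod_cast this

/-- the generic point of a punctured disc lies in `X` -/
theorem disc_mem {X D : PSet N} {f : ℂ → Fin (N + 1) → ℂ} (hf : Disc X D f) :
    X.Mem (fun i => cl _ (coord_mero hf i)) := by
  obtain ⟨z, hz⟩ := (exD 1 one_pos).conn.nonempty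
  refine ⟨?_, fun G hG => ?_⟩
  · obtain ⟨j, hj⟩ := Function.ne_iff.1 (hf.mem z⁻¹ (inv_mem_ball hz)).1.1
    intro h0
    have h1 := (ord_eval hf (MvPolynomial.X j) hz (by simpa using hj)).1
    rw [aeval_X] at h1
    exact h1 (congrFun h0 j)
  · have h1 : MeromorphicOn (fun z => eval (fun i => f z⁻¹ i) G) (exD 1 one_pos).U :=
      fun z hz => (eval_an hf G hz).meromorphicAt
    have h2 : aeval (fun i => cl _ (coord_mero hf i)) G =
      cl (fun z => eval (fun i => f z⁻¹ i) G) h1 := val_cl G _ h1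
    rw [h2, cl_eq_zero]
    intro w hw
    filter_upwards [nhdsWithin_le_nhds ((Ext_open 1).mem_nhds hw)] with v hv
    have h3 := (hf.mem v⁻¹ (inv_mem_ball hv)).1.2 G hG
    rwa [aeval_eq_eval] at h3

/-- the places of the points have no centre in `D` -/
theorem disc_centre {X D : PSet N} {f : ℂ → Fin (N + 1) → ℂ} (hf : Disc X D f) {z : ℂ}
    (hz : z ∈ (exD 1 one_pos).U) :
    ¬ CentreIn D (fun i => cl _ (coord_mero hf i)) (PL hz) := by
  intro hcen
  obtain ⟨j, hj⟩ := Function.ne_iff.1 (hf.mem z⁻¹ (inv_mem_ball hz)).1.1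
  have h1 := ord_eval hf (MvPolynomial.X j) hz (by simpa using hj)
  rw [aeval_X] at h1
  have h2 : ∃ G ∈ D.eqs, eval (f z⁻¹) G ≠ 0 := by
    by_contra hcon
    push Not at hcon
    exact (hf.mem z⁻¹ (inv_mem_ball hz)).2 ⟨(hf.mem z⁻¹ (inv_mem_ball hz)).1.1, fun G hG => by
      rw [aeval_eq_eval]; exact hcon G hG⟩
  obtain ⟨G, hG, hGz⟩ := h2
  obtain ⟨E, hE⟩ := D.hom G hG
  have h3 := ord_eval hf G hz hGz
  have h6 : ∀ i, cl _ (coord_mero hf i) ≠ 0 → 0 ≤ (PL hz).ord (cl _ (coord_mero hf i)) :=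
    fun i hi => by
      have h5 := ge_cl (hg := coord_mero hf i) hz (coord_an (pcurve_of hf) i z hz)
      exact h5.resolve_left hi
  rcases hcen 0 ⟨h6, j, h1.1, h1.2⟩ G hG E hE with h4 | h4
  · exact h3.1 h4
  · rw [h3.2, mul_zero] at h4
    exact lt_irrefl _ h4

/-- Picard implies Brody -/
theorem brody_of_picard {X D : PSet N} {G : MvPolynomial (Fin (N + 1)) ℂ}
    (h : PicardOff X D G) : BrodyOff X D G := by
  intro f hc z
  by_contra hz
  obtain ⟨w, hw, hwz⟩ := sin_point z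
  have e1 := h (fun w => f (Complex.sin w⁻¹))
    ⟨Pool.Agent.W601.PH.sin_diff hc.diff, fun z _ => hc.mem _⟩
    ⟨w, hw, by simp only [hwz]; exact hz⟩
  obtain ⟨z1, z2, h12⟩ := hc.nonconst
  exact Pool.Agent.W601.PH.sin_not hc.diff (fun z => (hc.mem z).1.1) ⟨z2, z1, h12⟩ e1

/-- finitely generated fields -/
theorem ess_of_gen {L : Type} [Field L] [Algebra ℂ L] {y : Fin (N + 1) → L}
    (hgen : IntermediateField.adjoin ℂ {f : L | ∃ i j, y j ≠ 0 ∧ f = y i / y j} = ⊤) :
    Algebra.EssFiniteType ℂ L := by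
  rw [← IntermediateField.fg_top_iff]
  have hfin : {z : L | ∃ i j, y j ≠ 0 ∧ z = y i / y j}.Finite := by
    refine (Set.finite_range fun p : Fin (N + 1) × Fin (N + 1) => y p.1 / y p.2).subset ?_
    rintro z ⟨i, j, -, rfl⟩
    exact ⟨(i, j), rfl⟩
  refine ⟨hfin.toFinset, ?_⟩
  rw [Set.Finite.coe_toFinset]
  exact hgen

/-- **The transfer theorem.** -/
theorem transfer (hn : 0 < n) {X D : PSet N}
    {g : Fin (n + 1) → MvPolynomial (Fin (N + 1)) ℂ} {δ : ℕ} (hg : ∀ i, (g i).IsHomogeneous δ)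
    (C : ∀ (L : Type) [Field L] [Algebra ℂ L], Place ℂ L → (Fin n → L) → Prop)
    {G0 : MvPolynomial (Fin (N + 1)) ℂ} (hG0 : ∃ E : ℕ, G0.IsHomogeneous E)
    (hC : ∀ (L : Type) [Field L] [Algebra ℂ L] (a : Fin (N + 1) → L), X.Mem a →
      aeval a G0 ≠ 0 → aeval a (g 0) ≠ 0 → ∀ P : Place ℂ L, ¬ CentreIn D a P →
      C L P fun i => aeval a (g i.succ) / aeval a (g 0))
    {H : MvPolynomial (Fin n) ℂ} (hH : H ≠ 0)
    (han : ∀ x : Fin n → MK (exD 1 one_pos), aeval x H ≠ 0 →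
      (∀ (z : ℂ) (hz : z ∈ (exD 1 one_pos).U), C _ (PL hz) x) → ∀ i, x i ∈ Minf 1 one_pos)
    (halg : ∀ (L : Type) [Field L] [Algebra ℂ L] (d : ℕ) (x : Fin n → L)
      (Bd : Place ℂ L → Prop), Algebra.EssFiniteType ℂ L → 0 < d → Algebra.trdeg ℂ L = d →
      Algebra.IsAlgebraic (IntermediateField.adjoin ℂ (Set.range x)) L →
      aeval x H ≠ 0 → (∀ P, ¬ Bd P → C L P x) → LogGeneralType ℂ L d Bd)
    {K : Type} [Field K] [Algebra ℂ K] {a : Fin (N + 1) → K} (hK : X.FunctionField K a)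
    (hD : ¬ D.Mem a) (hG0a : aeval a G0 ≠ 0) (hg0 : aeval a (g 0) ≠ 0)
    (hind : AlgebraicIndependent ℂ fun i : Fin n => aeval a (g i.succ) / aeval a (g 0))
    (htr : Algebra.trdeg ℂ K = n) : Four X D K a n := by
  classical
  have hbas : IsTranscendenceBasis ℂ
      (fun i : Fin n => aeval a (g i.succ) / aeval a (g 0)) :=
    hind.isTranscendenceBasis_of_lift_trdeg_le_of_finite (by rw [htr]; simp)
  have hKalg : Algebra.IsAlgebraic (IntermediateField.adjoin ℂ
      (Set.range fun i : Fin n => aeval a (g i.succ) / aeval a (g 0))) K :=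
    hbas.isAlgebraic_field
  choose Dg mm c hrel using fun i j => exists_rel hg hK hg0 hKalg i j
  let H' : MvPolynomial (Fin (n + 1)) ℂ :=
    Pool.Agent.TH152.HY.Hy 0 (rename Fin.succ H) (rename Fin.succ H).totalDegree
  let R : MvPolynomial (Fin (n + 1)) ℂ :=
    (∏ i : Fin (N + 1), ∏ j : Fin (N + 1), c i j (mm i j)) * (H' * MvPolynomial.X 0)
  let Q : MvPolynomial (Fin (N + 1)) ℂ := G0 * aeval g R
  obtain ⟨E, hRh⟩ : ∃ E, R.IsHomogeneous E :=
    ⟨_, (IsHomogeneous.prod _ _ _ fun i _ => IsHomogeneous.prod _ _ _ fun j _ =>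
      (hrel i j).1.hom _ le_rfl).mul ((Pool.Agent.TH152.HY.Hy_hom 0 _ le_rfl).mul
      (isHomogeneous_X _ _))⟩
  obtain ⟨E0, hE0⟩ := hG0
  have hQh : ∃ E, Q.IsHomogeneous E := ⟨_, hE0.mul (bind_hom hg hRh)⟩
  have hH' : ∀ {L : Type} [Field L] [Algebra ℂ L] (b : Fin (n + 1) → L), b 0 ≠ 0 →
      (aeval b H' ≠ 0 ↔ aeval (fun i : Fin n => b i.succ / b 0) H ≠ 0) := by
    intro L _ _ b hb
    have h1 := Pool.Agent.TH152.HY.Hy_field b hb (rename Fin.succ H) le_rfl
    have h2 : aeval (fun j => b j / b 0) (rename Fin.succ H) =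
        aeval (fun i : Fin n => b i.succ / b 0) H := by
      rw [aeval_rename]
      rfl
    rw [h2] at h1
    rw [show aeval b H' = _ from h1]
    simp [hb]
  have hsplit : ∀ {L : Type} [Field L] [Algebra ℂ L] (y : Fin (N + 1) → L), aeval y Q ≠ 0 →
      aeval y G0 ≠ 0 ∧ aeval y (g 0) ≠ 0 ∧
      (∀ i j, aeval (fun i => aeval y (g i)) (c i j (mm i j)) ≠ 0) ∧
      aeval (fun i : Fin n => aeval y (g i.succ) / aeval y (g 0)) H ≠ 0 := by
    intro L _ _ y hy
    simp only [Q, map_mul] at hy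
    obtain ⟨h1, h2⟩ := mul_ne_zero_iff.1 hy
    rw [aeval_bind] at h2
    simp only [R, map_mul, map_prod, aeval_X] at h2
    obtain ⟨h3, h4⟩ := mul_ne_zero_iff.1 h2
    obtain ⟨h5, h6⟩ := mul_ne_zero_iff.1 h4
    refine ⟨h1, h6, fun i j h0 => h3 ?_, ?_⟩
    · rw [Finset.prod_eq_zero (Finset.mem_univ i) (Finset.prod_eq_zero (Finset.mem_univ j) h0)]
    · exact (hH' (fun i => aeval y (g i)) h6).1 h5
  have hQa : aeval a Q ≠ 0 := by
    simp only [Q, map_mul]
    rw [aeval_bind]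
    simp only [R, map_mul, map_prod, aeval_X]
    refine mul_ne_zero hG0a (mul_ne_zero ?_ (mul_ne_zero ?_ hg0))
    · exact Finset.prod_ne_zero_iff.mpr fun i _ => Finset.prod_ne_zero_iff.mpr fun j _ =>
        (hrel i j).2
    · refine (hH' (fun i => aeval a (g i)) hg0).2 fun h0 => hH ?_
      exact (algebraicIndependent_iff.1 hind) _ h0
  -- Lang
  have hLang : LangOff X D Q := by
    intro L _ _ a' d hmem _ hne hgen htr hd
    obtain ⟨h0, h1, h2, h3⟩ := hsplit a' hne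
    refine halg L d _ (CentreIn D a') (ess_of_gen hgen) hd htr ?_ h3
      fun P hP => hC L a' hmem h0 h1 P hP
    set F := IntermediateField.adjoin ℂ
      (Set.range fun i : Fin n => aeval a' (g i.succ) / aeval a' (g 0)) with hF
    have hall : ∀ i j, a' j ≠ 0 → IsAlgebraic F (a' i / a' j) := fun i j haj =>
      ratio_alg (hrel i j).1 hmem haj h1 (h2 i j) F fun k =>
        IntermediateField.subset_adjoin ℂ _ ⟨k, rfl⟩
    constructor
    intro f
    have hle : IntermediateField.adjoin ℂ {f : L | ∃ i j, a' j ≠ 0 ∧ f = a' i / a' j} ≤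
        (algebraicClosure F L).restrictScalars ℂ := by
      rw [IntermediateField.adjoin_le_iff]
      rintro f ⟨i, j, hj, rfl⟩
      exact mem_algebraicClosure_iff.mpr (hall i j hj)
    rw [hgen] at hle
    exact mem_algebraicClosure_iff.mp (hle (IntermediateField.mem_top (x := f)))
  -- Picard
  have hPic : PicardOff X D Q := by
    rintro f hf ⟨z0, hz0, hne⟩
    have hz0' : z0⁻¹ ∈ (exD 1 one_pos).U := inv_mem_ext (mem_disc.1 hz0)
    have hQ := (ord_eval hf Q hz0' (by rw [inv_inv]; exact hne)).1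
    obtain ⟨h0, h1, h2, h3⟩ := hsplit _ hQ
    have hx := han _ h3 fun z hz => hC _ _ (disc_mem hf) h0 h1 _ (disc_centre hf hz)
    refine extends_of_minf (pcurve_of hf) (coord_mero hf) fun i j hj => ?_
    exact Minf_closed (ratio_alg (hrel i j).1 (disc_mem hf) hj h1 (h2 i j) (Minf 1 one_pos) hx)
  refine ⟨hLang K a n hK.mem hD hQa hK.gen htr hn, Q, hQh, ?_, hPic, brody_of_picard hPic, hLang⟩
  -- a point of `X - D`
  have h1 : ∃ F ∈ D.eqs, aeval a F ≠ 0 := by
    by_contra hcon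
    push Not at hcon
    exact hD ⟨hK.mem.1, hcon⟩
  obtain ⟨F, hF, hFab⟩ := h1
  by_contra hcon
  push Not at hcon
  have h3 : aeval a (F * Q) = 0 := null (X := X) (fun u hu => by
    rw [map_mul]
    by_cases hFv : eval u F = 0
    · rw [hFv, zero_mul]
    · rw [hcon u ⟨hu, fun hd => hFv (by rw [← aeval_eq_eval]; exact hd.2 F hF)⟩, mul_zero])
    hK.mem
  rw [map_mul] at h3
  exact mul_ne_zero hFab hQa h3

end Pool.Agent.K9h12.FR
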